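import Pool.Agent.H74.SC.Fin3

/-!
# MP_335839_nt (Schneider's conjecture): reduction to fields with few automorphisms

`K` is a number field, `L/K` a finite Galois extension in the algebraic closure `Ω` of `K`, `p` an odd prime, `r ≥ 1`.
Definitions (file `Pool/Agent/H74/SC/Defs.lean`):

* `ShaZero K p r S F` : `Sha^1(O_(F,S), ℤ_p(r)) = 0` (for a field `F` between `K` and `Ω` and a set `S` of places of `K`);
* `Above K p S` : `S` contains the places above `p`;
* `Periodic K F` : every subgroup of `Aut(F/K)` whose order is a product of two primes is cyclic;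
* `FreeAct K F` : `Aut(F/K)` acts freely on a nonzero torsion-free abelian group (it is trivial or a Frobenius complement).

The archimedean places give no condition, as `p` is odd.
-/

set_option autoImplicit false
set_option synthInstance.maxHeartbeats 400000

open scoped Pointwise NumberField
open Pool.Agent.H74.SC

namespace Pool.Agent.Results.MP_335839_nt.FewAutomorphisms

/-- For `L/K` finite Galois, `p` odd, `r ≥ 1` the following are equivalent:

* `Sha^1(O_(F,S), ℤ_p(r)) = 0` for all `K ≤ F ≤ L` and all sets `S` of places of `K` containing those above `p`;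
* `Sha^1(O_(L,S), ℤ_p(r)) = 0` for one finite such `S`;
* for all `K ≤ F ≤ L` such that `Aut(F/K)` has only cyclic subgroups of order `q q'` (`q`, `q'` prime) there is a finite `S`
  with `Sha^1(O_(F,S), ℤ_p(r)) = 0`;
* the same for all `K ≤ F ≤ L` such that `Aut(F/K)` acts freely on a nonzero torsion-free abelian group;
* for every torsion-free `Gal(Ω/K)`-module `W ≠ 0` with trivial action of `Gal(Ω/L)` there are a field `K ≤ F ≤ L`, a nonzero
  vector of `W` fixed by `Gal(Ω/F)`, and a finite `S` with `Sha^1(O_(F,S), ℤ_p(r)) = 0`. -/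
theorem result (K : Type) [Field K] [NumberField K] (p : ℕ) [Fact p.Prime] (hp : p ≠ 2) (r : ℕ) (hr : 1 ≤ r)
    (L : IntermediateField K (AlgebraicClosure K)) [FiniteDimensional K L] [IsGalois K L] :
    List.TFAE
      [∀ F : IntermediateField K (AlgebraicClosure K), F ≤ L →
          ∀ S : Set (Ideal (𝓞 K)), Above K p S → ShaZero K p r S F,
       ∃ S : Set (Ideal (𝓞 K)), S.Finite ∧ Above K p S ∧ ShaZero K p r S L,
       ∀ F : IntermediateField K (AlgebraicClosure K), F ≤ L → Periodic K F →
          ∃ S : Set (Ideal (𝓞 K)), S.Finite ∧ Above K p S ∧ ShaZero K p r S F,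
       ∀ F : IntermediateField K (AlgebraicClosure K), F ≤ L → FreeAct K F →
          ∃ S : Set (Ideal (𝓞 K)), S.Finite ∧ Above K p S ∧ ShaZero K p r S F,
       ∀ (W : Type) [AddCommGroup W] [DistribMulAction Gal(AlgebraicClosure K/K) W],
          (∀ (k : ℕ) (w : W), k ≠ 0 → k • w = 0 → w = 0) → (∀ g ∈ L.fixingSubgroup, ∀ w : W, g • w = w) →
          (∃ w : W, w ≠ 0) →
          ∃ F : IntermediateField K (AlgebraicClosure K), F ≤ L ∧
            (∃ w : W, w ≠ 0 ∧ ∀ g ∈ F.fixingSubgroup, g • w = w) ∧
            ∃ S : Set (Ideal (𝓞 K)), S.Finite ∧ Above K p S ∧ ShaZero K p r S F] :=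
  main p hp hr L

end Pool.Agent.Results.MP_335839_nt.FewAutomorphisms
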